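import Pool.Agent.W586.GZ.Stm

set_option autoImplicit false
open Filter Topology

namespace Pool.Agent.W293.GZB

open Pool.Agent.W586.GZ

open Classical in
theorem step (S : Set (ℕ →₀ ℚ)) (hS : Idl S) (t t' : ℕ → ℕ → ℝ) (C : ℝ) (G : Set ℕ)
    (h : CB S t C) (ht1 : ∀ i j, (i ∈ G ↔ j ∈ G) → t' i j = t i j)
    (ht2 : ∀ i j, ¬ (i ∈ G ↔ j ∈ G) → t' i j = 0) : CB S t' C := by
  obtain ⟨hC, h⟩ := h
  refine ⟨hC, fun F x c hx => ?_⟩
  set s : ℕ → ℝ := fun i => if i ∈ G then 1 else -1 with hs
  have hsabs : ∀ i, |s i| = 1 := by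
    intro i
    rw [hs]
    simp only
    split_ifs <;> simp
  have hflip : ∀ (y : ℕ → ℝ) (d : ℝ), NB S y d → NB S (fun i => s i * y i) d := by
    intro y d hy f hf
    rw [ev_congr f (fun i => s i * y i) y (fun i _ => by rw [abs_mul, hsabs, one_mul])]
    exact hy f hf
  have h1 := h F x c hx
  have h2 := hflip _ _ (h F (fun i => s i * x i) c (hflip x c hx))
  have h3 := (NB.add hS h1 h2).smul (1 / 2)
  have e : mv t' F x =
      fun n => 1 / 2 * (mv t F x n + s n * mv t F (fun i => s i * x i) n) := by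
    funext i
    by_cases hi : i ∈ F
    · rw [mv_apply_of_mem _ _ _ _ hi, mv_apply_of_mem _ _ _ _ hi, mv_apply_of_mem _ _ _ _ hi,
        Finset.mul_sum, ← Finset.sum_add_distrib, Finset.mul_sum]
      refine Finset.sum_congr rfl fun j _ => ?_
      by_cases hiG : i ∈ G
      · by_cases hjG : j ∈ G
        · rw [ht1 i j (by simp [hiG, hjG])]
          simp [hs, hiG, hjG]
          ring
        · rw [ht2 i j (by simp [hiG, hjG])]
          simp [hs, hiG, hjG]
      · by_cases hjG : j ∈ G
        · rw [ht2 i j (by simp [hiG, hjG])]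
          simp [hs, hiG, hjG]
        · rw [ht1 i j (by simp [hiG, hjG])]
          simp [hs, hiG, hjG]
          ring
    · rw [mv_apply_of_notMem _ _ _ _ hi, mv_apply_of_notMem _ _ _ _ hi,
        mv_apply_of_notMem _ _ _ _ hi]
      simp
  rw [e]
  refine h3.mono (le_of_eq ?_)
  rw [abs_of_pos (by norm_num : (0 : ℝ) < 1 / 2)]
  ring

open Classical in
theorem main : S_BLK := by
  intro S hS t C κ h
  have hR : ∀ R : ℕ, CB S (fun i j => if ∀ r < R, (κ i = r ↔ κ j = r) then t i j else 0) C := by
    intro R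
    induction R with
    | zero =>
      refine step S hS t _ C ∅ h (fun i j _ => ?_) (fun i j hij => ?_)
      · rw [if_pos]
        intro r hr
        exact absurd hr (Nat.not_lt_zero r)
      · exact absurd (by simp) hij
    | succ R ih =>
      refine step S hS _ _ C {i | κ i = R} ih (fun i j hij => ?_) (fun i j hij => ?_)
      · have hB : κ i = R ↔ κ j = R := hij
        by_cases hA : ∀ r < R, (κ i = r ↔ κ j = r)
        · have hAB : ∀ r < R + 1, (κ i = r ↔ κ j = r) := by
            intro r hr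
            rcases Nat.lt_succ_iff_lt_or_eq.mp hr with h2 | h2
            · exact hA r h2
            · rw [h2]
              exact hB
          rw [if_pos hAB, if_pos hA]
        · have hAB : ¬ ∀ r < R + 1, (κ i = r ↔ κ j = r) :=
            fun h2 => hA fun r hr => h2 r (Nat.lt_succ_of_lt hr)
          rw [if_neg hAB, if_neg hA]
      · have hB : ¬ (κ i = R ↔ κ j = R) := hij
        have hAB : ¬ ∀ r < R + 1, (κ i = r ↔ κ j = r) := fun h2 => hB (h2 R (Nat.lt_succ_self R))
        rw [if_neg hAB]
  refine ⟨h.1, fun F x c hx => ?_⟩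
  set R := (F.sup κ) + 1 with hRd
  have h1 := (hR R).2 F x c hx
  have e : mv (fun i j => if ∀ r < R, (κ i = r ↔ κ j = r) then t i j else 0) F x =
      mv (blk κ t) F x := by
    funext i
    by_cases hi : i ∈ F
    · rw [mv_apply_of_mem _ _ _ _ hi, mv_apply_of_mem _ _ _ _ hi]
      refine Finset.sum_congr rfl fun j hj => ?_
      congr 1
      unfold blk
      have hiR : κ i < R := Nat.lt_succ_of_le (Finset.le_sup (f := κ) hi)
      have hjR : κ j < R := Nat.lt_succ_of_le (Finset.le_sup (f := κ) hj)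
      by_cases hk : κ i = κ j
      · rw [if_pos hk, if_pos (fun r _ => by rw [hk])]
      · rw [if_neg hk, if_neg]
        intro h2
        exact hk ((h2 (κ i) hiR).mp rfl).symm
    · rw [mv_apply_of_notMem _ _ _ _ hi, mv_apply_of_notMem _ _ _ _ hi]
  rw [← e]
  exact h1

end Pool.Agent.W293.GZB
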